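import Mathlib
import Pool.Agent.H41Z.TD.Prob

set_option autoImplicit false

/-! Probability laws on finite types. -/

namespace Pool.Agent.H41Z.KR

open Finset Pool.Agent.H41Z.TD
open scoped Classical

/-- a probability law on a finite type -/
structure Law (α : Type) [Fintype α] where
  w : α → ℝ
  nonneg : ∀ a, 0 ≤ w a
  sum_one : ∑ a, w a = 1

namespace Law

variable {α β : Type} [Fintype α] [Fintype β]

/-- expectation -/
noncomputable def E (μ : Law α) (f : α → ℝ) : ℝ := ∑ a, μ.w a * f a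

/-- almost surely -/
def AS (μ : Law α) (p : α → Prop) : Prop := ∀ a, μ.w a ≠ 0 → p a

lemma E_mono_AS (μ : Law α) {f g : α → ℝ} (h : μ.AS (fun a => f a ≤ g a)) : μ.E f ≤ μ.E g := by
  refine Finset.sum_le_sum (fun a _ => ?_)
  by_cases ha : μ.w a = 0
  · simp [ha]
  · exact mul_le_mul_of_nonneg_left (h a ha) (μ.nonneg a)

lemma E_mono (μ : Law α) {f g : α → ℝ} (h : ∀ a, f a ≤ g a) : μ.E f ≤ μ.E g :=
  μ.E_mono_AS (fun a _ => h a)

lemma E_congr (μ : Law α) {f g : α → ℝ} (h : ∀ a, f a = g a) : μ.E f = μ.E g := by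
  rw [funext h]

lemma E_congr_AS (μ : Law α) {f g : α → ℝ} (h : μ.AS (fun a => f a = g a)) : μ.E f = μ.E g :=
  le_antisymm (μ.E_mono_AS (fun a ha => (h a ha).le)) (μ.E_mono_AS (fun a ha => (h a ha).ge))

lemma E_const (μ : Law α) (c : ℝ) : μ.E (fun _ => c) = c := by
  unfold E
  rw [← Finset.sum_mul, μ.sum_one, one_mul]

lemma E_add (μ : Law α) (f g : α → ℝ) : μ.E (fun a => f a + g a) = μ.E f + μ.E g := by
  unfold E
  rw [← Finset.sum_add_distrib]
  exact Finset.sum_congr rfl (fun a _ => by ring)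

lemma E_sub (μ : Law α) (f g : α → ℝ) : μ.E (fun a => f a - g a) = μ.E f - μ.E g := by
  unfold E
  rw [← Finset.sum_sub_distrib]
  exact Finset.sum_congr rfl (fun a _ => by ring)

lemma E_mul_left (μ : Law α) (c : ℝ) (f : α → ℝ) : μ.E (fun a => c * f a) = c * μ.E f := by
  unfold E
  rw [Finset.mul_sum]
  exact Finset.sum_congr rfl (fun a _ => by ring)

lemma E_mul_right (μ : Law α) (c : ℝ) (f : α → ℝ) : μ.E (fun a => f a * c) = μ.E f * c := by
  rw [mul_comm, ← E_mul_left]
  exact μ.E_congr (fun a => mul_comm _ _)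

lemma E_sum (μ : Law α) {ι : Type} (s : Finset ι) (f : ι → α → ℝ) :
    μ.E (fun a => ∑ i ∈ s, f i a) = ∑ i ∈ s, μ.E (f i) := by
  unfold E
  rw [Finset.sum_comm]
  exact Finset.sum_congr rfl (fun a _ => Finset.mul_sum _ _ _)

lemma E_nonneg (μ : Law α) {f : α → ℝ} (h : ∀ a, 0 ≤ f a) : 0 ≤ μ.E f :=
  Finset.sum_nonneg (fun a _ => mul_nonneg (μ.nonneg a) (h a))

lemma exists_le_E (μ : Law α) (f : α → ℝ) : ∃ a, μ.w a ≠ 0 ∧ f a ≤ μ.E f := by
  have hne : (univ.filter (fun a => μ.w a ≠ 0)).Nonempty := by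
    by_contra hcon
    rw [Finset.not_nonempty_iff_eq_empty, Finset.filter_eq_empty_iff] at hcon
    have h1 := μ.sum_one
    rw [Finset.sum_eq_zero (fun a ha => by simpa using hcon ha)] at h1
    exact zero_ne_one h1
  obtain ⟨a, ha, hmin⟩ := Finset.exists_min_image _ f hne
  refine ⟨a, (mem_filter.1 ha).2, ?_⟩
  rw [← μ.E_const (f a)]
  exact μ.E_mono_AS (fun b hb => hmin b (mem_filter.2 ⟨mem_univ _, hb⟩))

/-- composition with a kernel -/
noncomputable def bind (μ : Law α) (κ : α → Law β) : Law β where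
  w b := ∑ a, μ.w a * (κ a).w b
  nonneg b := Finset.sum_nonneg (fun a _ => mul_nonneg (μ.nonneg a) ((κ a).nonneg b))
  sum_one := by
    rw [Finset.sum_comm, ← μ.sum_one]
    refine Finset.sum_congr rfl (fun a _ => ?_)
    rw [← Finset.mul_sum, (κ a).sum_one, mul_one]

lemma E_bind (μ : Law α) (κ : α → Law β) (f : β → ℝ) :
    (μ.bind κ).E f = μ.E (fun a => (κ a).E f) := by
  unfold E bind
  simp only [Finset.sum_mul, Finset.mul_sum]
  rw [Finset.sum_comm]
  exact Finset.sum_congr rfl (fun a _ => Finset.sum_congr rfl (fun b _ => by ring))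

lemma AS_bind (μ : Law α) (κ : α → Law β) {p : β → Prop} (h : μ.AS (fun a => (κ a).AS p)) :
    (μ.bind κ).AS p := by
  intro b hb
  obtain ⟨a, -, ha⟩ := Finset.exists_ne_zero_of_sum_ne_zero hb
  exact h a (left_ne_zero_of_mul ha) b (right_ne_zero_of_mul ha)

/-- point mass -/
noncomputable def pure (a : α) : Law α where
  w b := if b = a then 1 else 0
  nonneg b := by split_ifs <;> norm_num
  sum_one := by simp

lemma E_pure (a : α) (f : α → ℝ) : (pure a).E f = f a := by
  unfold E pure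
  simp

lemma AS_pure {a : α} {p : α → Prop} (h : p a) : (pure a).AS p := by
  intro b hb
  have : b = a := by
    by_contra hne
    exact hb (if_neg hne)
  rw [this]; exact h

/-- image law -/
noncomputable def map (μ : Law α) (g : α → β) : Law β := μ.bind (fun a => pure (g a))

lemma E_map (μ : Law α) (g : α → β) (f : β → ℝ) : (μ.map g).E f = μ.E (fun a => f (g a)) := by
  unfold map
  rw [E_bind]
  exact μ.E_congr (fun a => E_pure _ _)

lemma AS_map (μ : Law α) (g : α → β) {p : β → Prop} (h : μ.AS (fun a => p (g a))) :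
    (μ.map g).AS p :=
  μ.AS_bind _ (fun a ha => AS_pure (h a ha))

/-- uniform law -/
noncomputable def unif (α : Type) [Fintype α] [Nonempty α] : Law α where
  w _ := 1 / Fintype.card α
  nonneg _ := by positivity
  sum_one := by
    have : (0 : ℝ) < Fintype.card α := by exact_mod_cast Fintype.card_pos
    rw [Finset.sum_const, Finset.card_univ, nsmul_eq_mul]
    field_simp

lemma E_unif [Nonempty α] (f : α → ℝ) : (unif α).E f = Ex f := by
  unfold E unif Ex
  rw [← Finset.mul_sum]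
  ring

/-- product law -/
noncomputable def pi {ι : Type} [Fintype ι] [DecidableEq ι] (ν : ι → Law α) : Law (ι → α) where
  w ω := ∏ i, (ν i).w (ω i)
  nonneg ω := Finset.prod_nonneg (fun i _ => (ν i).nonneg _)
  sum_one := by
    rw [← Fintype.piFinset_univ, ← Finset.prod_univ_sum]
    exact Finset.prod_eq_one (fun i _ => (ν i).sum_one)

lemma E_pi_prod {ι : Type} [Fintype ι] [DecidableEq ι] (ν : ι → Law α) (s : Finset ι) (f : ι → α → ℝ) :
    (pi ν).E (fun ω => ∏ i ∈ s, f i (ω i)) = ∏ i ∈ s, (ν i).E (f i) := by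
  have h1 : ∀ ω : ι → α, (pi ν).w ω * ∏ i ∈ s, f i (ω i) =
      ∏ i, ((ν i).w (ω i) * if i ∈ s then f i (ω i) else 1) := by
    intro ω
    rw [Finset.prod_mul_distrib, Finset.prod_ite_mem, Finset.univ_inter]
    rfl
  unfold E
  rw [Finset.sum_congr rfl (fun ω _ => h1 ω), ← Fintype.piFinset_univ,
    ← Finset.prod_univ_sum (fun _ => univ) (fun i a => (ν i).w a * if i ∈ s then f i a else 1)]
  have h2 : ∀ i, ∑ a, ((ν i).w a * if i ∈ s then f i a else 1) =
      if i ∈ s then ∑ a, (ν i).w a * f i a else 1 := by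
    intro i
    split_ifs
    · rfl
    · simp [(ν i).sum_one]
  rw [Finset.prod_congr rfl (fun i _ => h2 i), Finset.prod_ite_mem, Finset.univ_inter]

lemma E_pi_one {ι : Type} [Fintype ι] [DecidableEq ι] (ν : ι → Law α) (i : ι) (f : α → ℝ) :
    (pi ν).E (fun ω => f (ω i)) = (ν i).E f := by
  have := E_pi_prod ν {i} (fun _ => f)
  simpa using this

lemma E_pi_two {ι : Type} [Fintype ι] [DecidableEq ι] (ν : ι → Law α) {i j : ι} (hij : i ≠ j) (f g : α → ℝ) :
    (pi ν).E (fun ω => f (ω i) * g (ω j)) = (ν i).E f * (ν j).E g := by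
  have := E_pi_prod ν {i, j} (fun k => if k = i then f else g)
  simpa [Finset.prod_pair hij, hij.symm] using this

lemma AS_pi {ι : Type} [Fintype ι] [DecidableEq ι] (ν : ι → Law α) {p : ι → α → Prop} (h : ∀ i, (ν i).AS (p i)) :
    (pi ν).AS (fun ω => ∀ i, p i (ω i)) := by
  intro ω hω i
  exact h i _ (Finset.prod_ne_zero_iff.1 hω i (mem_univ i))

/-- a biased coin -/
noncomputable def bern (p : ℝ) (h0 : 0 ≤ p) (h1 : p ≤ 1) : Law Bool where
  w b := if b then p else 1 - p
  nonneg b := by split_ifs <;> linarith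
  sum_one := by simp

lemma E_bern (p : ℝ) (h0 : 0 ≤ p) (h1 : p ≤ 1) (f : Bool → ℝ) :
    (bern p h0 h1).E f = p * f true + (1 - p) * f false := by
  unfold E bern
  simp

end Law

/-- value of a coin as a real number -/
noncomputable def bv (b : Bool) : ℝ := if b then 1 else 0

lemma E_bern_bv (p : ℝ) (h0 : 0 ≤ p) (h1 : p ≤ 1) : (Law.bern p h0 h1).E bv = p := by
  rw [Law.E_bern]; simp [bv]

lemma E_coins {ι : Type} [Fintype ι] [DecidableEq ι] (p : ℝ) (h0 : 0 ≤ p) (h1 : p ≤ 1) (s : Finset ι) :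
    (Law.pi (fun _ : ι => Law.bern p h0 h1)).E (fun ω => ∏ i ∈ s, bv (ω i)) = p ^ s.card := by
  rw [Law.E_pi_prod _ s (fun _ => bv), Finset.prod_congr rfl (fun _ _ => E_bern_bv p h0 h1),
    Finset.prod_const]

/-- indicator of membership -/
noncomputable def ind {V : Type} (T : Finset V) (v : V) : ℝ := if v ∈ T then 1 else 0

lemma ind_nonneg {V : Type} (T : Finset V) (v : V) : 0 ≤ ind T v := by
  unfold ind; split_ifs <;> norm_num

lemma ind_le_one {V : Type} (T : Finset V) (v : V) : ind T v ≤ 1 := by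
  unfold ind; split_ifs <;> norm_num

lemma ind_mono {V : Type} {T T' : Finset V} (h : T ⊆ T') (v : V) : ind T v ≤ ind T' v := by
  unfold ind
  by_cases hv : v ∈ T
  · rw [if_pos hv, if_pos (h hv)]
  · rw [if_neg hv]; split_ifs <;> norm_num

lemma ind_of_mem {V : Type} {T : Finset V} {v : V} (h : v ∈ T) : ind T v = 1 := if_pos h

lemma ind_of_notMem {V : Type} {T : Finset V} {v : V} (h : v ∉ T) : ind T v = 0 := if_neg h

lemma card_inter_eq {V : Type} (A T : Finset V) : ((A ∩ T).card : ℝ) = ∑ x ∈ A, ind T x := by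
  unfold ind
  rw [← Finset.filter_mem_eq_inter, Finset.card_filter]
  push_cast
  rfl

end Pool.Agent.H41Z.KR
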