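import Mathlib
import Pool.Agent.H41Z.TD.Comb
import Pool.Agent.H41Z.TD.Proc
import Pool.Agent.H41Z.KR.Law

set_option autoImplicit false

/-! The final stage: sparsify, delete triangles and run the weight process. -/

namespace Pool.Agent.H41Z.KR

open Finset Pool.Agent.H41Z.TD
open scoped Classical

variable {V : Type} [Fintype V]

/-- the neighbours of higher level -/
noncomputable def par (G : SimpleGraph V) (l : V → ℕ) (v : V) : Finset V :=
  (nb G v).filter (fun u => l v < l u)

lemma mem_par {G : SimpleGraph V} {l : V → ℕ} {v u : V} :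
    u ∈ par G l v ↔ G.Adj v u ∧ l v < l u := by
  simp [par, mem_nb]

/-- independent set -/
def Ind (G : SimpleGraph V) (J : Finset V) : Prop := ∀ u ∈ J, ∀ v ∈ J, ¬ G.Adj u v

/-- number of edges among the parents of `v` in `T` -/
noncomputable def tri (G : SimpleGraph V) (l : V → ℕ) (T : Finset V) (v : V) : ℕ :=
  ∑ x ∈ par G l v ∩ T, (par G l x ∩ par G l v ∩ T).card

lemma tf_stage (G : SimpleGraph V) (l : V → ℕ) (hl : Function.Injective l) (L : ℝ) (hL : 0 < L)
    (w0 : ℝ) (hw0 : 0 < w0) (hw : w0 * Real.exp L = 1 / 2) (T : Finset V) :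
    ∃ μ : Law (Finset V), μ.AS (fun J => J ⊆ T ∧ Ind G J) ∧
      (∀ v, ind T v * ((3 / 4) * w0 - (3 / 4) * w0 * tri G l T v -
        (2 / L) * (w0 ^ 2 * (par G l v ∩ T).card)) ≤ μ.E (fun J => ind J v)) ∧
      ∀ u v, u ≠ v → μ.E (fun J => ind J u * ind J v) ≤ (w0 / 2) * (ind T u * ind T v) := by
  let T2 := T.filter (fun v => tri G l T v = 0)
  let P : V → Finset V := fun v => if v ∈ T2 then par G l v ∩ T2 else ∅
  have hPsub : ∀ v, P v ⊆ par G l v ∩ T := by
    intro v u hu
    simp only [P] at hu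
    split_ifs at hu
    · rw [mem_inter] at hu ⊢
      exact ⟨hu.1, (mem_filter.1 hu.2).1⟩
    · simp at hu
  have hP : ∀ v, ∀ u ∈ P v, l v < l u :=
    fun v u hu => (mem_par.1 (mem_inter.1 (hPsub v hu)).1).2
  obtain ⟨M, hM⟩ := exists_nat_gt (4 / w0)
  have hMR : (0 : ℝ) < M := lt_trans (by positivity) hM
  have hMpos : 0 < M := by exact_mod_cast hMR
  obtain ⟨W, hW⟩ := exists_weights M w0 (w0 * Real.exp L) P l hP
  let X : Proc V :=
    { M := M, w0 := w0, cap := w0 * Real.exp L, P := P, l := l, W := W, hM := hMpos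
      hw0 := hw0.le, hc0 := by positivity, hc1 := hw.le, hP := hP, hW := hW }
  have hne : Nonempty (V → Fin X.M) := ⟨fun _ => ⟨0, hMpos⟩⟩
  have hind : ∀ ω v, ind (T2.filter (X.fires ω)) v = ind T2 v * X.f ω v := by
    intro ω v
    rw [X.f_eq]
    unfold ind
    by_cases h1 : v ∈ T2 <;> by_cases h2 : X.fires ω v <;> simp [h1, h2]
  refine ⟨(Law.unif (V → Fin X.M)).map (fun ω => T2.filter (X.fires ω)), ?_, ?_, ?_⟩
  · refine Law.AS_map _ _ (fun ω _ => ⟨?_, ?_⟩)
    · exact (Finset.filter_subset _ _).trans (Finset.filter_subset _ _)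
    · intro u hu v hv huv
      rw [mem_filter] at hu hv
      rcases lt_trichotomy (l u) (l v) with h | h | h
      · refine X.not_fires_of_parent ω u v ?_ hv.2 hu.2
        show v ∈ P u
        simp only [P, if_pos hu.1, mem_inter]
        exact ⟨mem_par.2 ⟨huv, h⟩, hv.1⟩
      · exact huv.ne (hl h)
      · refine X.not_fires_of_parent ω v u ?_ hu.2 hv.2
        show u ∈ P v
        simp only [P, if_pos hv.1, mem_inter]
        exact ⟨mem_par.2 ⟨huv.symm, h⟩, hu.1⟩
  · intro v
    rw [Law.E_map, Law.E_unif, Ex_congr (fun ω => hind ω v), Ex_mul_left]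
    have hEx : 0 ≤ Ex (fun ω => X.f ω v) := Ex_nonneg (fun ω => X.f_nonneg ω v)
    have hB : 0 ≤ (2 / L) * (w0 ^ 2 * ((par G l v ∩ T).card : ℝ)) := by positivity
    by_cases hv : v ∈ T
    · by_cases ht : tri G l T v = 0
      · have hv2 : v ∈ T2 := mem_filter.2 ⟨hv, ht⟩
        rw [ind_of_mem hv, ind_of_mem hv2, ht]
        have h1 := X.Ex_f_ge L hL rfl v (par G l v ∩ T).card (Finset.card_le_card (hPsub v)) (by
          intro u hu
          rw [Finset.disjoint_left]
          intro z hz1 hz2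
          have a1 := hPsub v hu
          have a2 := mem_inter.1 (hPsub u hz1)
          have a3 := mem_inter.1 (hPsub v hz2)
          have a4 := (Finset.sum_eq_zero_iff.1 ht) u a1
          rw [Finset.card_eq_zero] at a4
          have : z ∈ par G l u ∩ par G l v ∩ T := mem_inter.2 ⟨mem_inter.2 ⟨a2.1, a3.1⟩, a2.2⟩
          rw [a4] at this
          exact Finset.notMem_empty _ this)
        have h5 : 1 / (M : ℝ) ≤ w0 / 4 := by
          rw [div_lt_iff₀ hw0] at hM
          rw [div_le_div_iff₀ hMR (by norm_num)]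
          linarith
        change w0 - (2 / L) * (((par G l v ∩ T).card : ℝ) * w0 ^ 2) - 1 / (M : ℝ) ≤ _ at h1
        rw [mul_comm (w0 ^ 2)]
        push_cast
        linarith
      · have h1 : (1 : ℝ) ≤ tri G l T v := by exact_mod_cast Nat.one_le_iff_ne_zero.2 ht
        rw [ind_of_mem hv]
        have h2 : 0 ≤ ind T2 v * Ex (fun ω => X.f ω v) := mul_nonneg (ind_nonneg _ _) hEx
        nlinarith
    · rw [ind_of_notMem hv, zero_mul]
      exact mul_nonneg (ind_nonneg _ _) hEx
  · intro u v huv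
    rw [Law.E_map, Law.E_unif]
    have h1 : ∀ ω, ind (T2.filter (X.fires ω)) u * ind (T2.filter (X.fires ω)) v =
        (ind T2 u * ind T2 v) * (X.f ω u * X.f ω v) := by
      intro ω; rw [hind, hind]; ring
    rw [Ex_congr h1, Ex_mul_left, mul_comm]
    have h2 := X.Ex_ff_le_cap u v huv
    change _ ≤ (w0 * Real.exp L) * w0 at h2
    rw [hw] at h2
    have h3 : ind T2 u * ind T2 v ≤ ind T u * ind T v :=
      mul_le_mul (ind_mono (Finset.filter_subset _ _) u) (ind_mono (Finset.filter_subset _ _) v)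
        (ind_nonneg _ _) (ind_nonneg _ _)
    exact mul_le_mul (by linarith) h3 (mul_nonneg (ind_nonneg _ _) (ind_nonneg _ _))
      (by positivity)

omit [Fintype V] in
lemma ind_coin (T : Finset V) (ω : V → Bool) (v : V) :
    ind (T.filter (fun x => ω x = true)) v = ind T v * bv (ω v) := by
  unfold ind bv
  by_cases h1 : v ∈ T <;> by_cases h2 : ω v = true <;> simp [h1, h2]

omit [Fintype V] in
lemma card_inter_coin (A T : Finset V) (ω : V → Bool) :
    ((A ∩ T.filter (fun x => ω x = true)).card : ℝ) = ∑ x ∈ A ∩ T, bv (ω x) := by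
  have : A ∩ T.filter (fun x => ω x = true) = (A ∩ T).filter (fun x => ω x = true) := by
    ext x; simp [and_assoc]
  rw [this, Finset.card_filter]
  push_cast
  rfl

lemma E_coin1 (p : ℝ) (h0 : 0 ≤ p) (h1 : p ≤ 1) (a : V) :
    (Law.pi (fun _ : V => Law.bern p h0 h1)).E (fun ω => bv (ω a)) = p := by
  have := E_coins p h0 h1 ({a} : Finset V)
  simpa using this

lemma E_coin2 (p : ℝ) (h0 : 0 ≤ p) (h1 : p ≤ 1) {a b : V} (hab : a ≠ b) :
    (Law.pi (fun _ : V => Law.bern p h0 h1)).E (fun ω => bv (ω a) * bv (ω b)) = p ^ 2 := by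
  have := E_coins p h0 h1 ({a, b} : Finset V)
  simpa [Finset.prod_pair hab, Finset.card_pair hab] using this

lemma E_coin3 (p : ℝ) (h0 : 0 ≤ p) (h1 : p ≤ 1) {a b c : V} (hab : a ≠ b) (hac : a ≠ c)
    (hbc : b ≠ c) :
    (Law.pi (fun _ : V => Law.bern p h0 h1)).E
      (fun ω => bv (ω a) * (bv (ω b) * bv (ω c))) = p ^ 3 := by
  have := E_coins p h0 h1 ({a, b, c} : Finset V)
  have hn : a ∉ ({b, c} : Finset V) := by simp [hab, hac]
  simpa [Finset.prod_insert hn, Finset.prod_pair hbc, Finset.card_insert_of_notMem hn,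
    Finset.card_pair hbc] using this

theorem final_stage (G : SimpleGraph V) (l : V → ℕ) (hl : Function.Injective l) (L : ℝ)
    (hL : 0 < L) (φ : ℝ) (hφ0 : 0 < φ) (hφ : φ ≤ Real.exp (-L) / 2) (T : Finset V) :
    ∃ μ : Law (Finset V), μ.AS (fun J => J ⊆ T ∧ Ind G J) ∧
      (∀ v, (3 / 4) * (φ * ind T v) - (2 / L) * (φ ^ 2 * ind T v * (par G l v ∩ T).card) -
        4 * Real.exp (2 * L) * (φ ^ 3 * ind T v * tri G l T v) ≤ μ.E (fun J => ind J v)) ∧
      ∀ u v, u ≠ v → μ.E (fun J => ind J u * ind J v) ≤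
        Real.exp L * (φ ^ 2 * (ind T u * ind T v)) := by
  set w0 := Real.exp (-L) / 2 with hw0def
  have hw0 : 0 < w0 := by positivity
  have hw : w0 * Real.exp L = 1 / 2 := by
    rw [hw0def, div_mul_eq_mul_div, ← Real.exp_add]; simp
  set p := φ / w0 with hp
  have hp0 : 0 ≤ p := by positivity
  have hp1 : p ≤ 1 := by rw [hp, div_le_one hw0]; exact hφ
  have hφp : φ = p * w0 := by rw [hp]; field_simp
  choose κ hκ1 hκ2 hκ3 using tf_stage G l hl L hL w0 hw0 hw
  refine ⟨(Law.pi (fun _ : V => Law.bern p hp0 hp1)).bind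
    (fun ω => κ (T.filter (fun x => ω x = true))), ?_, ?_, ?_⟩
  · refine Law.AS_bind _ _ (fun ω _ J hJ => ?_)
    have := hκ1 _ J hJ
    exact ⟨this.1.trans (Finset.filter_subset _ _), this.2⟩
  · intro v
    rw [Law.E_bind]
    refine le_trans ?_ (Law.E_mono _ (fun ω => hκ2 _ v))
    have h1 : ∀ ω : V → Bool, ind (T.filter (fun x => ω x = true)) v *
        ((3 / 4) * w0 - (3 / 4) * w0 * tri G l (T.filter (fun x => ω x = true)) v -
        (2 / L) * (w0 ^ 2 * (par G l v ∩ T.filter (fun x => ω x = true)).card)) =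
        ind T v * ((3 / 4) * w0 * bv (ω v) - (3 / 4) * w0 *
          (∑ x ∈ par G l v ∩ T, ∑ y ∈ par G l x ∩ par G l v ∩ T,
            bv (ω v) * (bv (ω x) * bv (ω y))) -
          (2 / L) * (w0 ^ 2 * ∑ x ∈ par G l v ∩ T, bv (ω v) * bv (ω x))) := by
      intro ω
      have a1 : (tri G l (T.filter (fun x => ω x = true)) v : ℝ) =
          ∑ x ∈ par G l v ∩ T, ∑ y ∈ par G l x ∩ par G l v ∩ T, bv (ω x) * bv (ω y) := by
        unfold tri
        push_cast
        have : par G l v ∩ T.filter (fun x => ω x = true) =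
            (par G l v ∩ T).filter (fun x => ω x = true) := by
          ext x; simp [and_assoc]
        rw [this, Finset.sum_filter]
        refine Finset.sum_congr rfl (fun x _ => ?_)
        rw [card_inter_coin, ← Finset.mul_sum]
        unfold bv
        split_ifs <;> simp
      rw [ind_coin, card_inter_coin, a1]
      simp only [← Finset.mul_sum]
      ring
    rw [Law.E_congr _ h1, Law.E_mul_left, Law.E_sub, Law.E_sub, Law.E_mul_left, Law.E_mul_left,
      Law.E_mul_left, Law.E_mul_left, Law.E_sum, Law.E_sum, E_coin1]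
    have a2 : ∑ x ∈ par G l v ∩ T, (Law.pi (fun _ : V => Law.bern p hp0 hp1)).E
        (fun ω => bv (ω v) * bv (ω x)) = p ^ 2 * (par G l v ∩ T).card := by
      rw [Finset.sum_congr rfl (fun x hx =>
        E_coin2 p hp0 hp1 (mem_par.1 (mem_inter.1 hx).1).1.ne), Finset.sum_const, nsmul_eq_mul,
        mul_comm]
    have a3 : ∑ x ∈ par G l v ∩ T, (Law.pi (fun _ : V => Law.bern p hp0 hp1)).E
        (fun ω => ∑ y ∈ par G l x ∩ par G l v ∩ T, bv (ω v) * (bv (ω x) * bv (ω y))) =
        p ^ 3 * tri G l T v := by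
      unfold tri
      push_cast
      rw [Finset.mul_sum]
      refine Finset.sum_congr rfl (fun x hx => ?_)
      rw [Law.E_sum, Finset.sum_congr rfl (fun y hy => E_coin3 p hp0 hp1
        (mem_par.1 (mem_inter.1 hx).1).1.ne
        (mem_par.1 (mem_inter.1 (mem_inter.1 hy).1).2).1.ne
        (mem_par.1 (mem_inter.1 (mem_inter.1 hy).1).1).1.ne), Finset.sum_const, nsmul_eq_mul,
        mul_comm]
    rw [a2, a3]
    have a4 : 4 * Real.exp (2 * L) * w0 ^ 2 = 1 := by
      rw [show 2 * L = L + L by ring, Real.exp_add]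
      nlinarith
    have a5 : 4 * Real.exp (2 * L) * (φ ^ 3 * ind T v * tri G l T v) =
        w0 * p ^ 3 * ind T v * tri G l T v := by
      rw [hφp]
      calc 4 * Real.exp (2 * L) * ((p * w0) ^ 3 * ind T v * tri G l T v) =
          (4 * Real.exp (2 * L) * w0 ^ 2) * (w0 * p ^ 3 * ind T v * tri G l T v) := by ring
        _ = _ := by rw [a4, one_mul]
    rw [a5, hφp]
    have a6 : 0 ≤ w0 * p ^ 3 * ind T v * tri G l T v := by
      have := ind_nonneg T v
      positivity
    nlinarith
  · intro u v huv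
    rw [Law.E_bind]
    refine (Law.E_mono _ (fun ω => hκ3 _ u v huv)).trans ?_
    have h1 : ∀ ω : V → Bool, (w0 / 2) * (ind (T.filter (fun x => ω x = true)) u *
        ind (T.filter (fun x => ω x = true)) v) =
        ((w0 / 2) * (ind T u * ind T v)) * (bv (ω u) * bv (ω v)) := by
      intro ω; rw [ind_coin, ind_coin]; ring
    rw [Law.E_congr _ h1, Law.E_mul_left, E_coin2 p hp0 hp1 huv, hφp]
    apply le_of_eq
    calc w0 / 2 * (ind T u * ind T v) * p ^ 2 =
        (1 / 2) * (w0 * p ^ 2 * (ind T u * ind T v)) := by ring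
      _ = (w0 * Real.exp L) * (w0 * p ^ 2 * (ind T u * ind T v)) := by rw [hw]
      _ = _ := by ring

end Pool.Agent.H41Z.KR
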