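import Mathlib
import Pool.Agent.H41Z.KR.Final

set_option autoImplicit false

/-! One anchoring round. -/

namespace Pool.Agent.H41Z.KR

open Finset Pool.Agent.H41Z.TD
open scoped Classical

/-- no clique of size `r` inside `T` -/
def CF {V : Type} (G : SimpleGraph V) (r : ℕ) (T : Finset V) : Prop :=
  ∀ s : Finset V, s ⊆ T → ¬ G.IsNClique r s

/-- the inductive statement: random independent sets with marginals `a / d` and bounded pair
correlations -/
def Good (r : ℕ) : Prop :=
  ∀ a : ℝ, 0 < a → ∃ K D : ℝ, 1 ≤ K ∧ 0 < D ∧ ∀ d : ℝ, D ≤ d →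
    ∀ (V : Type) [Fintype V] (G : SimpleGraph V) (l : V → ℕ), Function.Injective l →
    ∀ T : Finset V, CF G r T → (∀ v ∈ T, ((par G l v ∩ T).card : ℝ) ≤ d) →
    ∃ μ : Law (Finset V), μ.AS (fun J => J ⊆ T ∧ Ind G J) ∧
      (∀ v ∈ T, μ.E (fun J => ind J v) = a / d) ∧
      ∀ u v, u ≠ v → μ.E (fun J => ind J u * ind J v) ≤ K * (a / d) ^ 2

variable {V : Type} [Fintype V]

/-- weighted number of parents -/
noncomputable def BB (G : SimpleGraph V) (l : V → ℕ) (φ : ℝ) (T : Finset V) (v : V) : ℝ :=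
  φ ^ 2 * ind T v * (par G l v ∩ T).card

/-- weighted number of triangles -/
noncomputable def CC (G : SimpleGraph V) (l : V → ℕ) (φ : ℝ) (T : Finset V) (v : V) : ℝ :=
  φ ^ 3 * ind T v * tri G l T v

/-- sampling inside the parts of a fixed partition -/
lemma part_sample (G : SimpleGraph V) (l : V → ℕ) (T : Finset V) (an : V → V ⊕ V) (p K : ℝ)
    (hK : 1 ≤ K)
    (hν : ∀ i : V ⊕ V, ∃ μ : Law (Finset V),
      μ.AS (fun J => J ⊆ T.filter (fun v => an v = i) ∧ Ind G J) ∧
      (∀ v ∈ T.filter (fun v => an v = i), μ.E (fun J => ind J v) = p) ∧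
      ∀ u v, u ≠ v → μ.E (fun J => ind J u * ind J v) ≤ K * p ^ 2) :
    ∃ ρ : Law (Finset V), ρ.AS (fun T1 => T1 ⊆ T) ∧
      (∀ v, ρ.E (fun T1 => ind T1 v) = p * ind T v) ∧
      (∀ v, ρ.E (fun T1 => ind T1 v * (par G l v ∩ T1).card) =
        p ^ 2 * ind T v * ∑ x ∈ par G l v ∩ T, (if an x = an v then 0 else 1)) ∧
      ∀ u v, u ≠ v → ρ.E (fun T1 => ind T1 u * ind T1 v) ≤ K * p ^ 2 * (ind T u * ind T v) := by
  choose ν h1 h2 h3 using hν
  have hind : ∀ (J : V ⊕ V → Finset V) v,
      ind (T.filter (fun v => v ∈ J (an v))) v = ind T v * ind (J (an v)) v := by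
    intro J v
    unfold ind
    by_cases a : v ∈ T <;> by_cases b : v ∈ J (an v) <;> simp [a, b]
  have hone : ∀ v ∈ T, (ν (an v)).E (fun J => ind J v) = p :=
    fun v hv => h2 _ v (mem_filter.2 ⟨hv, rfl⟩)
  have htwo : ∀ u ∈ T, ∀ v ∈ T, an u ≠ an v →
      (Law.pi ν).E (fun J => ind (J (an u)) u * ind (J (an v)) v) = p ^ 2 := by
    intro u hu v hv huv
    rw [Law.E_pi_two ν huv (fun J => ind J u) (fun J => ind J v), hone u hu, hone v hv, sq]
  refine ⟨(Law.pi ν).map (fun J => T.filter (fun v => v ∈ J (an v))), ?_, ?_, ?_, ?_⟩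
  · exact Law.AS_map _ _ (fun J _ => Finset.filter_subset _ _)
  · intro v
    rw [Law.E_map, Law.E_congr _ (fun J => hind J v), Law.E_mul_left,
      Law.E_pi_one ν (an v) (fun J => ind J v)]
    by_cases hv : v ∈ T
    · rw [hone v hv, mul_comm]
    · rw [ind_of_notMem hv]; simp
  · intro v
    rw [Law.E_map]
    have a1 : ∀ J : V ⊕ V → Finset V, ind (T.filter (fun v => v ∈ J (an v))) v *
        ((par G l v ∩ T.filter (fun v => v ∈ J (an v))).card : ℝ) =
        ind T v * ∑ x ∈ par G l v ∩ T, ind (J (an x)) x * ind (J (an v)) v := by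
      intro J
      have : par G l v ∩ T.filter (fun v => v ∈ J (an v)) =
          (par G l v ∩ T).filter (fun v => v ∈ J (an v)) := by
        ext x; simp [and_assoc]
      rw [hind, this, Finset.card_filter, ← Finset.sum_mul]
      push_cast
      unfold ind
      ring
    rw [Law.E_congr _ a1, Law.E_mul_left, Law.E_sum]
    by_cases hv : v ∈ T
    · rw [ind_of_mem hv, one_mul, mul_one, Finset.mul_sum]
      refine Finset.sum_congr rfl (fun x hx => ?_)
      rw [mem_inter] at hx
      split_ifs with hxv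
      · rw [hxv, Law.E_pi_one ν (an v) (fun J => ind J x * ind J v), mul_zero,
          ← (ν (an v)).E_const 0]
        refine Law.E_congr_AS _ (fun J hJ => ?_)
        beta_reduce
        by_cases a : x ∈ J
        · by_cases b : v ∈ J
          · exact absurd (mem_par.1 hx.1).1 ((h1 _ J hJ).2 v b x a)
          · rw [ind_of_notMem b, mul_zero]
        · rw [ind_of_notMem a, zero_mul]
      · rw [htwo x hx.2 v hv hxv, mul_one]
    · rw [ind_of_notMem hv]; simp
  · intro u v huv
    rw [Law.E_map]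
    have a1 : ∀ J : V ⊕ V → Finset V, ind (T.filter (fun v => v ∈ J (an v))) u *
        ind (T.filter (fun v => v ∈ J (an v))) v =
        (ind T u * ind T v) * (ind (J (an u)) u * ind (J (an v)) v) := by
      intro J; rw [hind, hind]; ring
    rw [Law.E_congr _ a1, Law.E_mul_left]
    by_cases hu : u ∈ T
    · by_cases hv : v ∈ T
      · rw [ind_of_mem hu, ind_of_mem hv, mul_one, one_mul, mul_one]
        by_cases h : an u = an v
        · rw [h, Law.E_pi_one ν (an v) (fun J => ind J u * ind J v)]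
          exact h3 _ u v huv
        · rw [htwo u hu v hv h]
          nlinarith [sq_nonneg p]
      · rw [ind_of_notMem hv]; simp
    · rw [ind_of_notMem hu]; simp

/-- the anchor of a vertex: a marked parent, if there is one -/
noncomputable def anchor (G : SimpleGraph V) (l : V → ℕ) (T : Finset V) (ω : V → Bool) (v : V) :
    V ⊕ V :=
  if h : ∃ y ∈ par G l v ∩ T, ω y = true then Sum.inl h.choose else Sum.inr v

lemma anchor_CF (G : SimpleGraph V) (l : V → ℕ) (T : Finset V) (ω : V → Bool) (r : ℕ)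
    (hr : 2 ≤ r) (hT : CF G (r + 1) T) (i : V ⊕ V) :
    CF G r (T.filter (fun v => anchor G l T ω v = i)) := by
  intro s hs hcl
  cases i with
  | inl y =>
    have hy : ∀ v ∈ s, y ∈ par G l v ∩ T := by
      intro v hv
      have h1 := (mem_filter.1 (hs hv)).2
      unfold anchor at h1
      split_ifs at h1 with h
      rw [← Sum.inl.inj h1]
      exact h.choose_spec.1
    have hne : s.Nonempty := by rw [← Finset.card_pos, hcl.card_eq]; omega
    obtain ⟨v0, hv0⟩ := hne
    refine hT (insert y s) ?_ (hcl.insert (fun v hv => ?_))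
    · intro z hz
      rcases mem_insert.1 hz with rfl | hz
      · exact (mem_inter.1 (hy v0 hv0)).2
      · exact (mem_filter.1 (hs hz)).1
    · exact (mem_par.1 (mem_inter.1 (hy v hv)).1).1.symm
  | inr y =>
    have hy : s ⊆ {y} := by
      intro v hv
      have h1 := (mem_filter.1 (hs hv)).2
      unfold anchor at h1
      split_ifs at h1 with h
      rw [mem_singleton]
      exact Sum.inr.inj h1
    have := Finset.card_le_card hy
    rw [hcl.card_eq, Finset.card_singleton] at this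
    omega

lemma bv_nonneg (b : Bool) : 0 ≤ bv b := by unfold bv; split_ifs <;> norm_num

lemma anchor_ineq (G : SimpleGraph V) (l : V → ℕ) (T : Finset V) (ω : V → Bool) (x v : V) :
    (if anchor G l T ω x = anchor G l T ω v then (0 : ℝ) else 1) ≤
      1 - ∑ y ∈ par G l x ∩ par G l v ∩ T, (bv (ω y) -
        ∑ z ∈ ((par G l x ∩ T) ∪ (par G l v ∩ T)).erase y, bv (ω y) * bv (ω z)) := by
  set U := (par G l x ∩ T) ∪ (par G l v ∩ T) with hU
  have hCU : ∀ y ∈ par G l x ∩ par G l v ∩ T, y ∈ par G l x ∩ T ∧ y ∈ par G l v ∩ T := by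
    intro y hy
    simp only [mem_inter] at hy ⊢
    tauto
  -- a term is positive only if `y` is the unique marked vertex of `U`
  have hterm : ∀ y, (bv (ω y) - ∑ z ∈ U.erase y, bv (ω y) * bv (ω z)) ≤
      if ω y = true ∧ ∀ z ∈ U, ω z = true → z = y then 1 else 0 := by
    intro y
    have hS : 0 ≤ ∑ z ∈ U.erase y, bv (ω y) * bv (ω z) :=
      Finset.sum_nonneg (fun z _ => mul_nonneg (bv_nonneg _) (bv_nonneg _))
    by_cases h1 : ω y = true
    · by_cases h2 : ∀ z ∈ U, ω z = true → z = y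
      · rw [if_pos ⟨h1, h2⟩]
        have : bv (ω y) = 1 := by simp [bv, h1]
        linarith
      · rw [if_neg (fun h => h2 h.2)]
        push Not at h2
        obtain ⟨z, hz, hz1, hz2⟩ := h2
        have h3 : bv (ω y) * bv (ω z) ≤ ∑ z ∈ U.erase y, bv (ω y) * bv (ω z) :=
          Finset.single_le_sum (f := fun z => bv (ω y) * bv (ω z))
            (fun z _ => mul_nonneg (bv_nonneg _) (bv_nonneg _)) (mem_erase.2 ⟨hz2, hz⟩)
        have h4 : bv (ω z) = 1 := by simp [bv, hz1]
        rw [h4, mul_one] at h3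
        linarith
    · rw [if_neg (fun h => h1 h.1)]
      have : bv (ω y) = 0 := by simp [bv, h1]
      linarith
  have hsum := Finset.sum_le_sum (s := par G l x ∩ par G l v ∩ T) (fun y _ => hterm y)
  by_cases hex : ∃ y ∈ par G l x ∩ par G l v ∩ T, ω y = true ∧ ∀ z ∈ U, ω z = true → z = y
  · obtain ⟨y, hy, hy1, hy2⟩ := hex
    have hx : anchor G l T ω x = Sum.inl y := by
      have h : ∃ y ∈ par G l x ∩ T, ω y = true := ⟨y, (hCU y hy).1, hy1⟩
      unfold anchor
      rw [dif_pos h, hy2 _ (mem_union_left _ h.choose_spec.1) h.choose_spec.2]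
    have hv : anchor G l T ω v = Sum.inl y := by
      have h : ∃ y ∈ par G l v ∩ T, ω y = true := ⟨y, (hCU y hy).2, hy1⟩
      unfold anchor
      rw [dif_pos h, hy2 _ (mem_union_right _ h.choose_spec.1) h.choose_spec.2]
    rw [if_pos (hx.trans hv.symm)]
    rw [Finset.sum_eq_single_of_mem y hy (f := fun y =>
      if ω y = true ∧ ∀ z ∈ U, ω z = true → z = y then (1 : ℝ) else 0), if_pos ⟨hy1, hy2⟩] at hsum
    · linarith
    · intro b hb hby
      rw [if_neg]
      intro h
      exact hby (hy2 b (mem_union_left _ (hCU b hb).1) h.1)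
  · rw [Finset.sum_eq_zero (f := fun y =>
      if ω y = true ∧ ∀ z ∈ U, ω z = true → z = y then (1 : ℝ) else 0)
      (fun y hy => if_neg (fun h => hex ⟨y, hy, h⟩))] at hsum
    split_ifs <;> linarith

lemma E_anchor (G : SimpleGraph V) (l : V → ℕ) (T : Finset V) (β : ℝ) (h0 : 0 ≤ β) (h1 : β ≤ 1)
    (x v : V) (hx : β * (par G l x ∩ T).card ≤ 1 / 4) (hv : β * (par G l v ∩ T).card ≤ 1 / 4) :
    (Law.pi (fun _ : V => Law.bern β h0 h1)).E
      (fun ω => if anchor G l T ω x = anchor G l T ω v then (0 : ℝ) else 1) ≤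
      1 - (β / 2) * (par G l x ∩ par G l v ∩ T).card := by
  refine (Law.E_mono _ (fun ω => anchor_ineq G l T ω x v)).trans ?_
  rw [Law.E_sub, Law.E_const, Law.E_sum, mul_comm, ← nsmul_eq_mul, ← Finset.sum_const]
  refine sub_le_sub_left (Finset.sum_le_sum (fun y _ => ?_)) _
  rw [Law.E_sub, Law.E_sum, E_coin1, Finset.sum_congr rfl (fun z hz =>
    E_coin2 β h0 h1 (Finset.ne_of_mem_erase hz).symm), Finset.sum_const, nsmul_eq_mul]
  have a1 : ((((par G l x ∩ T) ∪ (par G l v ∩ T)).erase y).card : ℝ) ≤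
      (par G l x ∩ T).card + (par G l v ∩ T).card := by
    exact_mod_cast (Finset.card_le_card (Finset.erase_subset _ _)).trans (Finset.card_union_le _ _)
  have a2 := mul_le_mul_of_nonneg_left a1 h0
  nlinarith

theorem round (r : ℕ) (hr : 2 ≤ r) (hG : Good r) (Λ φ' : ℝ) (hΛ : 0 < Λ) (hφ' : 0 < φ') :
    ∃ K η : ℝ, 1 ≤ K ∧ 0 < η ∧ ∀ φ : ℝ, 0 < φ → φ ≤ η →
      ∀ (V : Type) [Fintype V] (G : SimpleGraph V) (l : V → ℕ), Function.Injective l →
      ∀ T : Finset V, CF G (r + 1) T → (∀ v ∈ T, φ * (par G l v ∩ T).card ≤ Λ) →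
      ∃ ρ : Law (Finset V),
        ρ.AS (fun T' => T' ⊆ T ∧ ∀ v ∈ T', φ' * (par G l v ∩ T').card ≤ Λ) ∧
        (∀ v, Λ * (φ * ind T v) - BB G l φ T v ≤
          ρ.E (fun T' => Λ * (φ' * ind T' v) - BB G l φ' T' v)) ∧
        (∀ v, ρ.E (fun T' => BB G l φ' T' v) ≤ BB G l φ T v - CC G l φ T v / (8 * Λ)) ∧
        ∀ u v, u ≠ v → ρ.E (fun T' => φ' ^ 2 * (ind T' u * ind T' v)) ≤
          K * (φ ^ 2 * (ind T u * ind T v)) := by
  obtain ⟨K, D, hK, hD, h⟩ := hG (Λ / φ') (by positivity)
  refine ⟨K, min (Λ / D) (4 * Λ), hK, by positivity, ?_⟩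
  intro φ hφ hφη V _ G l hl T hT hload
  have hβ0 : 0 ≤ φ / (4 * Λ) := by positivity
  have hβ1 : φ / (4 * Λ) ≤ 1 := by
    rw [div_le_one (by positivity)]; exact hφη.trans (min_le_right _ _)
  have hd : D ≤ Λ / φ := by
    have := hφη.trans (min_le_left _ _)
    rw [le_div_iff₀ hD] at this
    rw [le_div_iff₀ hφ]
    linarith
  set p := (Λ / φ') / (Λ / φ) with hp
  have hpφ : φ' * p = φ := by rw [hp]; field_simp
  have hsamp := fun ω : V → Bool => part_sample G l T (anchor G l T ω) p K hK (fun i =>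
    h (Λ / φ) hd V G l hl _ (anchor_CF G l T ω r hr hT i) (by
      intro v hv
      rw [le_div_iff₀ hφ, mul_comm]
      refine le_trans ?_ (hload v (mem_filter.1 hv).1)
      refine mul_le_mul_of_nonneg_left ?_ hφ.le
      exact_mod_cast Finset.card_le_card
        (Finset.inter_subset_inter_left (Finset.filter_subset _ _))))
  choose ρ h1 h2 h3 h4 using hsamp
  let ρ1 := (Law.pi (fun _ : V => Law.bern (φ / (4 * Λ)) hβ0 hβ1)).bind ρ
  let cut : Finset V → Finset V := fun T1 =>
    T1.filter (fun v => φ' * (par G l v ∩ T1).card ≤ Λ)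
  have hcut : ∀ T1, cut T1 ⊆ T1 := fun T1 => Finset.filter_subset _ _
  have hcard : ∀ T1 v, ((par G l v ∩ cut T1).card : ℝ) ≤ (par G l v ∩ T1).card := by
    intro T1 v
    exact_mod_cast Finset.card_le_card (Finset.inter_subset_inter_left (hcut T1))
  have hBcut : ∀ T1 v, BB G l φ' (cut T1) v ≤ BB G l φ' T1 v := by
    intro T1 v
    unfold BB
    exact mul_le_mul (mul_le_mul_of_nonneg_left (ind_mono (hcut T1) v) (by positivity))
      (hcard T1 v) (Nat.cast_nonneg _) (mul_nonneg (by positivity) (ind_nonneg _ _))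
  have hA1 : ∀ v, ρ1.E (fun T1 => φ' * ind T1 v) = φ * ind T v := by
    intro v
    rw [Law.E_mul_left, Law.E_bind, Law.E_congr _ (fun ω => h2 ω v), Law.E_const, ← hpφ]
    ring
  have hB1 : ∀ v, ρ1.E (fun T1 => BB G l φ' T1 v) ≤
      BB G l φ T v - CC G l φ T v / (8 * Λ) := by
    intro v
    have a1 : ∀ T1, BB G l φ' T1 v = φ' ^ 2 * (ind T1 v * (par G l v ∩ T1).card) := by
      intro T1; unfold BB; ring
    rw [Law.E_congr _ a1, Law.E_mul_left, Law.E_bind, Law.E_congr _ (fun ω => h3 ω v),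
      Law.E_mul_left, Law.E_sum]
    by_cases hv : v ∈ T
    · have hq : ∀ x ∈ T, φ / (4 * Λ) * (par G l x ∩ T).card ≤ 1 / 4 := by
        intro x hx
        rw [div_mul_eq_mul_div, div_le_iff₀ (by positivity)]
        linarith [hload x hx]
      have a2 := Finset.sum_le_sum (s := par G l v ∩ T) (fun x hx =>
        E_anchor G l T _ hβ0 hβ1 x v (hq x (mem_inter.1 hx).2) (hq v hv))
      rw [Finset.sum_sub_distrib, Finset.sum_const, nsmul_eq_mul, mul_one, ← Finset.mul_sum] at a2
      have a3 : (tri G l T v : ℝ) =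
          ∑ x ∈ par G l v ∩ T, ((par G l x ∩ par G l v ∩ T).card : ℝ) := by
        unfold tri; push_cast; rfl
      rw [← a3] at a2
      unfold BB CC
      rw [ind_of_mem hv, mul_one, mul_one, mul_one, ← mul_assoc, ← mul_pow, hpφ]
      calc _ ≤ φ ^ 2 * (((par G l v ∩ T).card : ℝ) - φ / (4 * Λ) / 2 * tri G l T v) :=
            mul_le_mul_of_nonneg_left a2 (by positivity)
        _ = _ := by field_simp; ring
    · unfold BB CC
      rw [ind_of_notMem hv]; simp
  refine ⟨ρ1.map cut, ?_, ?_, ?_, ?_⟩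
  · refine Law.AS_map _ _ (Law.AS_bind _ _ (fun ω _ T1 hT1 => ⟨?_, ?_⟩))
    · exact (hcut T1).trans (h1 ω T1 hT1)
    · intro v hv
      exact le_trans (mul_le_mul_of_nonneg_left (hcard T1 v) hφ'.le) (mem_filter.1 hv).2
  · intro v
    rw [Law.E_map]
    have a1 : ∀ T1, Λ * (φ' * ind T1 v) - BB G l φ' T1 v ≤
        Λ * (φ' * ind (cut T1) v) - BB G l φ' (cut T1) v := by
      intro T1
      by_cases hv : v ∈ cut T1
      · rw [ind_of_mem hv, ind_of_mem (hcut T1 hv)]
        linarith [hBcut T1 v]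
      · unfold BB
        rw [ind_of_notMem hv]
        by_cases hv1 : v ∈ T1
        · rw [ind_of_mem hv1]
          have : ¬ φ' * (par G l v ∩ T1).card ≤ Λ := fun h => hv (mem_filter.2 ⟨hv1, h⟩)
          push Not at this
          nlinarith
        · rw [ind_of_notMem hv1]; simp
    refine le_trans ?_ (Law.E_mono _ a1)
    rw [Law.E_sub, Law.E_mul_left, hA1]
    have a2 : 0 ≤ CC G l φ T v / (8 * Λ) := by
      unfold CC
      have := ind_nonneg T v
      positivity
    linarith [hB1 v]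
  · intro v
    rw [Law.E_map]
    exact (Law.E_mono _ (fun T1 => hBcut T1 v)).trans (hB1 v)
  · intro u v huv
    rw [Law.E_map]
    have a1 : ∀ T1, φ' ^ 2 * (ind (cut T1) u * ind (cut T1) v) ≤
        φ' ^ 2 * (ind T1 u * ind T1 v) := by
      intro T1
      refine mul_le_mul_of_nonneg_left ?_ (by positivity)
      exact mul_le_mul (ind_mono (hcut T1) u) (ind_mono (hcut T1) v) (ind_nonneg _ _)
        (ind_nonneg _ _)
    refine (Law.E_mono _ a1).trans ?_
    rw [Law.E_mul_left, Law.E_bind]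
    have a2 := Law.E_mono (Law.pi (fun _ : V => Law.bern (φ / (4 * Λ)) hβ0 hβ1))
      (fun ω => h4 ω u v huv)
    rw [Law.E_const] at a2
    calc _ ≤ φ' ^ 2 * (K * p ^ 2 * (ind T u * ind T v)) :=
          mul_le_mul_of_nonneg_left a2 (by positivity)
      _ = _ := by rw [← hpφ]; ring

end Pool.Agent.H41Z.KR
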