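import Mathlib
import Pool.Agent.H41Z.KR.Round
import Pool.Agent.H41Z.TD.Main

set_option autoImplicit false

/-! Induction on the clique number and the two applications. -/

namespace Pool.Agent.H41Z.KR

open Finset Pool.Agent.H41Z.TD
open scoped Classical

lemma BB_nonneg {V : Type} [Fintype V] (G : SimpleGraph V) (l : V → ℕ) (φ : ℝ) (T : Finset V)
    (v : V) : 0 ≤ BB G l φ T v := by
  unfold BB
  have := ind_nonneg T v
  positivity

theorem rounds (r : ℕ) (hr : 2 ≤ r) (hG : Good r) (Λ L : ℝ) (hΛ : 0 < Λ) (hL : 0 < L) :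
    ∀ R : ℕ, ∃ K η : ℝ, 1 ≤ K ∧ 0 < η ∧ ∀ φ : ℝ, 0 < φ → φ ≤ η →
      ∀ (V : Type) [Fintype V] (G : SimpleGraph V) (l : V → ℕ), Function.Injective l →
      ∀ T : Finset V, CF G (r + 1) T → (∀ v ∈ T, φ * (par G l v ∩ T).card ≤ Λ) →
      ∃ μ : Law (Finset V), μ.AS (fun J => J ⊆ T ∧ Ind G J) ∧
        (∀ v, R * ((3 / (4 * Λ)) * (Λ * (φ * ind T v) - BB G l φ T v) - (2 / L) * BB G l φ T v) -
          8 * Λ * (4 * Real.exp (2 * L)) * BB G l φ T v ≤ R * μ.E (fun J => ind J v)) ∧
        ∀ u v, u ≠ v → μ.E (fun J => ind J u * ind J v) ≤ K * (φ ^ 2 * (ind T u * ind T v)) := by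
  intro R
  induction R with
  | zero =>
    refine ⟨1, 1, le_rfl, one_pos, ?_⟩
    intro φ hφ _ V _ G l _ T _ _
    refine ⟨Law.pure ∅, Law.AS_pure ⟨Finset.empty_subset _, by simp [Ind]⟩, ?_, ?_⟩
    · intro v
      have := BB_nonneg G l φ T v
      have h2 : 0 ≤ 8 * Λ * (4 * Real.exp (2 * L)) * BB G l φ T v := by positivity
      simp only [Nat.cast_zero, zero_mul]
      linarith
    · intro u v _
      rw [Law.E_pure, ind_of_notMem (Finset.notMem_empty u), zero_mul]
      have := ind_nonneg T u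
      have := ind_nonneg T v
      positivity
  | succ R ih =>
    obtain ⟨K1, φ', hK1, hφ', h1⟩ := ih
    obtain ⟨K2, η, hK2, hη, h2⟩ := round r hr hG Λ φ' hΛ hφ'
    refine ⟨Real.exp L + K1 * K2, min η (Real.exp (-L) / 2), ?_, by positivity, ?_⟩
    · have := Real.exp_pos L
      nlinarith
    intro φ hφ hφη V _ G l hl T hT hload
    obtain ⟨ρ, a1, a2, a3, a4⟩ := h2 φ hφ (hφη.trans (min_le_left _ _)) V G l hl T hT hload
    obtain ⟨μ0, b1, b2, b3⟩ := final_stage G l hl L hL φ hφ (hφη.trans (min_le_right _ _)) T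
    have hκ : ∀ T' : Finset V, ∃ μ : Law (Finset V),
        (T' ⊆ T ∧ ∀ v ∈ T', φ' * (par G l v ∩ T').card ≤ Λ) →
        μ.AS (fun J => J ⊆ T' ∧ Ind G J) ∧
        (∀ v, R * ((3 / (4 * Λ)) * (Λ * (φ' * ind T' v) - BB G l φ' T' v) -
          (2 / L) * BB G l φ' T' v) -
          8 * Λ * (4 * Real.exp (2 * L)) * BB G l φ' T' v ≤ R * μ.E (fun J => ind J v)) ∧
        ∀ u v, u ≠ v → μ.E (fun J => ind J u * ind J v) ≤
          K1 * (φ' ^ 2 * (ind T' u * ind T' v)) := by
      intro T'
      by_cases h : T' ⊆ T ∧ ∀ v ∈ T', φ' * (par G l v ∩ T').card ≤ Λ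
      · obtain ⟨μ, hμ⟩ := h1 φ' hφ' le_rfl V G l hl T' (fun s hs => hT s (hs.trans h.1)) h.2
        exact ⟨μ, fun _ => hμ⟩
      · exact ⟨Law.pure ∅, fun h' => absurd h' h⟩
    choose κ hκ using hκ
    have hR0 : (0 : ℝ) ≤ R := Nat.cast_nonneg _
    have hq0 : (0 : ℝ) ≤ 1 / ((R : ℝ) + 1) := by positivity
    have hq1 : 1 / ((R : ℝ) + 1) ≤ 1 := by rw [div_le_one (by positivity)]; linarith
    refine ⟨(Law.bern _ hq0 hq1).bind (fun b => if b then μ0 else ρ.bind κ), ?_, ?_, ?_⟩
    · refine Law.AS_bind _ _ (fun b _ => ?_)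
      cases b
      · refine Law.AS_bind _ _ (fun T' hT' J hJ => ?_)
        have := (hκ T' (a1 T' hT')).1 J hJ
        exact ⟨this.1.trans (a1 T' hT').1, this.2⟩
      · exact b1
    · intro v
      rw [Law.E_bind, Law.E_bern]
      simp only [if_true, Bool.false_eq_true, if_false]
      have c1 : ρ.E (fun T' => R * ((3 / (4 * Λ)) * (Λ * (φ' * ind T' v) - BB G l φ' T' v) -
          (2 / L) * BB G l φ' T' v) - 8 * Λ * (4 * Real.exp (2 * L)) * BB G l φ' T' v) ≤
          R * (ρ.bind κ).E (fun J => ind J v) := by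
        rw [Law.E_bind, ← Law.E_mul_left]
        exact Law.E_mono_AS _ (fun T' hT' => (hκ T' (a1 T' hT')).2.1 v)
      rw [Law.E_sub, Law.E_mul_left, Law.E_mul_left, Law.E_sub, Law.E_mul_left,
        Law.E_mul_left] at c1
      have c2 := a2 v
      have c3 := a3 v
      have c4 := b2 v
      have c5 := BB_nonneg G l φ T v
      have hC : 0 ≤ CC G l φ T v := by
        unfold CC
        have := ind_nonneg T v
        positivity
      change (3 / 4) * (φ * ind T v) - (2 / L) * BB G l φ T v -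
        4 * Real.exp (2 * L) * CC G l φ T v ≤ _ at c4
      generalize ρ.E (fun T' => Λ * (φ' * ind T' v) - BB G l φ' T' v) = u' at *
      generalize ρ.E (fun T' => BB G l φ' T' v) = B' at *
      generalize (ρ.bind κ).E (fun J => ind J v) = P1 at *
      generalize μ0.E (fun J => ind J v) = P0 at *
      generalize BB G l φ T v = B at *
      generalize CC G l φ T v = C at *
      generalize φ * ind T v = A at *
      have hE : 0 < 4 * Real.exp (2 * L) := by positivity
      generalize 4 * Real.exp (2 * L) = CL at *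
      have d1 : ((R + 1 : ℕ) : ℝ) * (1 / ((R : ℝ) + 1) * P0 + (1 - 1 / ((R : ℝ) + 1)) * P1) =
          P0 + R * P1 := by
        push_cast; field_simp; ring
      rw [d1]
      have d2 : 8 * Λ * CL * B' ≤ 8 * Λ * CL * B - CL * C := by
        have : 8 * Λ * CL * (B - C / (8 * Λ)) = 8 * Λ * CL * B - CL * C := by field_simp
        rw [← this]
        exact mul_le_mul_of_nonneg_left c3 (by positivity)
      have d3 : B' ≤ B := by
        have : 0 ≤ C / (8 * Λ) := by positivity
        linarith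
      have d4 : (R : ℝ) * ((3 / (4 * Λ)) * (Λ * A - B) - (2 / L) * B) ≤
          R * ((3 / (4 * Λ)) * u' - (2 / L) * B') := by
        refine mul_le_mul_of_nonneg_left ?_ hR0
        have e1 := mul_le_mul_of_nonneg_left c2 (show 0 ≤ 3 / (4 * Λ) by positivity)
        have e2 := mul_le_mul_of_nonneg_left d3 (show 0 ≤ 2 / L by positivity)
        linarith
      have d5 : (3 / (4 * Λ)) * (Λ * A - B) ≤ (3 / 4) * A := by
        have e1 : (3 / (4 * Λ)) * (Λ * A - B) = (3 / 4) * A - (3 / (4 * Λ)) * B := by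
          field_simp
        have e2 : 0 ≤ (3 / (4 * Λ)) * B := by positivity
        linarith
      push_cast
      linarith
    · intro u v huv
      rw [Law.E_bind, Law.E_bern]
      simp only [if_true, Bool.false_eq_true, if_false]
      have hX : 0 ≤ φ ^ 2 * (ind T u * ind T v) := by
        have := ind_nonneg T u
        have := ind_nonneg T v
        positivity
      have c1 : (ρ.bind κ).E (fun J => ind J u * ind J v) ≤
          K1 * (K2 * (φ ^ 2 * (ind T u * ind T v))) := by
        rw [Law.E_bind]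
        refine (Law.E_mono_AS _ (fun T' hT' => (hκ T' (a1 T' hT')).2.2 u v huv)).trans ?_
        rw [Law.E_mul_left]
        exact mul_le_mul_of_nonneg_left (a4 u v huv) (by linarith)
      have c2 := b3 u v huv
      have c3 : 0 ≤ Real.exp L * (φ ^ 2 * (ind T u * ind T v)) := by positivity
      have c4 : 0 ≤ K1 * (K2 * (φ ^ 2 * (ind T u * ind T v))) := by positivity
      have c5 : 0 ≤ 1 - 1 / ((R : ℝ) + 1) := by linarith
      have c6 := mul_le_mul_of_nonneg_left c1 c5
      have c7 := mul_le_mul_of_nonneg_left c2 hq0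
      nlinarith

lemma thin {V : Type} [Fintype V] (G : SimpleGraph V) (T : Finset V) (μ : Law (Finset V))
    (q : ℝ) (hq : 0 < q) (h1 : μ.AS (fun J => J ⊆ T ∧ Ind G J))
    (h2 : ∀ v ∈ T, q ≤ μ.E (fun J => ind J v)) :
    ∃ μ' : Law (Finset V), μ'.AS (fun J => J ⊆ T ∧ Ind G J) ∧
      (∀ v ∈ T, μ'.E (fun J => ind J v) = q) ∧
      ∀ u v, μ'.E (fun J => ind J u * ind J v) ≤ μ.E (fun J => ind J u * ind J v) := by
  let s : V → ℝ := fun v => if v ∈ T then q / μ.E (fun J => ind J v) else 0
  have hs0 : ∀ v, 0 ≤ s v := by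
    intro v
    simp only [s]
    split_ifs with hv
    · exact div_nonneg hq.le (hq.le.trans (h2 v hv))
    · exact le_rfl
  have hs1 : ∀ v, s v ≤ 1 := by
    intro v
    simp only [s]
    split_ifs with hv
    · rw [div_le_one (lt_of_lt_of_le hq (h2 v hv))]; exact h2 v hv
    · exact zero_le_one
  refine ⟨μ.bind (fun J => (Law.pi (fun v => Law.bern (s v) (hs0 v) (hs1 v))).map
    (fun ω => J.filter (fun x => ω x = true))), ?_, ?_, ?_⟩
  · refine Law.AS_bind _ _ (fun J hJ => Law.AS_map _ _ (fun ω _ => ⟨?_, ?_⟩))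
    · exact (Finset.filter_subset _ _).trans (h1 J hJ).1
    · intro u hu v hv
      exact (h1 J hJ).2 u (mem_filter.1 hu).1 v (mem_filter.1 hv).1
  · intro v hv
    rw [Law.E_bind]
    have a1 : ∀ J : Finset V, ((Law.pi (fun v => Law.bern (s v) (hs0 v) (hs1 v))).map
        (fun ω => J.filter (fun x => ω x = true))).E (fun J => ind J v) = ind J v * s v := by
      intro J
      rw [Law.E_map, Law.E_congr _ (fun ω => ind_coin J ω v), Law.E_mul_left,
        Law.E_pi_one _ v bv, E_bern_bv]
    rw [Law.E_congr _ a1, Law.E_mul_right]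
    simp only [s, if_pos hv]
    have := (lt_of_lt_of_le hq (h2 v hv)).ne'
    field_simp
  · intro u v
    rw [Law.E_bind]
    refine Law.E_mono _ (fun J => ?_)
    rw [Law.E_map, ← Law.E_const (Law.pi (fun v => Law.bern (s v) (hs0 v) (hs1 v)))
      (ind J u * ind J v)]
    refine Law.E_mono _ (fun ω => ?_)
    exact mul_le_mul (ind_mono (Finset.filter_subset _ _) u) (ind_mono (Finset.filter_subset _ _) v)
      (ind_nonneg _ _) (ind_nonneg _ _)

theorem good_two : Good 2 := by
  intro a ha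
  refine ⟨1, a, le_rfl, ha, ?_⟩
  intro d hd V _ G l _ T hT _
  have hd0 : 0 < d := lt_of_lt_of_le ha hd
  have h0 : 0 ≤ a / d := by positivity
  have h1 : a / d ≤ 1 := by rw [div_le_one hd0]; exact hd
  refine ⟨(Law.pi (fun _ : V => Law.bern _ h0 h1)).map
    (fun ω => T.filter (fun x => ω x = true)), ?_, ?_, ?_⟩
  · refine Law.AS_map _ _ (fun ω _ => ⟨Finset.filter_subset _ _, ?_⟩)
    intro u hu v hv huv
    refine hT {u, v} ?_ ?_
    · intro z hz
      rcases mem_insert.1 hz with rfl | hz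
      · exact (mem_filter.1 hu).1
      · rw [mem_singleton.1 hz]; exact (mem_filter.1 hv).1
    · refine ⟨?_, Finset.card_pair huv.ne⟩
      simpa [SimpleGraph.isClique_pair] using fun _ => huv
  · intro v hv
    rw [Law.E_map, Law.E_congr _ (fun ω => ind_coin T ω v), Law.E_mul_left, E_coin1,
      ind_of_mem hv, one_mul]
  · intro u v huv
    rw [Law.E_map, one_mul, ← E_coin2 _ h0 h1 huv]
    refine Law.E_mono _ (fun ω => ?_)
    rw [ind_coin, ind_coin]
    exact mul_le_mul (mul_le_of_le_one_left (bv_nonneg _) (ind_le_one _ _))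
      (mul_le_of_le_one_left (bv_nonneg _) (ind_le_one _ _))
      (mul_nonneg (ind_nonneg _ _) (bv_nonneg _)) (bv_nonneg _)

theorem good_succ (r : ℕ) (hr : 2 ≤ r) (hG : Good r) : Good (r + 1) := by
  intro a ha
  obtain ⟨R, hR⟩ := exists_nat_ge (128 * a * (24 * a) * (4 * Real.exp (2 * (64 * a))))
  have hRpos : (0 : ℝ) < R := lt_of_lt_of_le (by positivity) hR
  obtain ⟨K, η, hK, hη, h⟩ := rounds r hr hG (24 * a) (64 * a) (by positivity) (by positivity) R
  refine ⟨4 * K, 2 * a / η, by linarith, by positivity, ?_⟩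
  intro d hd V _ G l hl T hT hdeg
  have hd0 : 0 < d := lt_of_lt_of_le (by positivity) hd
  have hφ : 0 < 2 * a / d := by positivity
  have hload : ∀ v ∈ T, 2 * a / d * (par G l v ∩ T).card ≤ 2 * a := by
    intro v hv
    rw [div_mul_eq_mul_div, div_le_iff₀ hd0]
    exact mul_le_mul_of_nonneg_left (hdeg v hv) (by positivity)
  obtain ⟨μ, h1, h2, h3⟩ := h (2 * a / d) hφ
    (by
      rw [div_le_iff₀ hη] at hd
      rw [div_le_iff₀ hd0]
      linarith)
    V G l hl T hT (fun v hv => (hload v hv).trans (by linarith))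
  obtain ⟨μ', b1, b2, b3⟩ := thin G T μ (a / d) (by positivity) h1 (by
    intro v hv
    have c1 := h2 v
    have c2 : BB G l (2 * a / d) T v ≤ 2 * a * (2 * a / d) := by
      unfold BB
      rw [ind_of_mem hv, mul_one, sq, mul_assoc, mul_comm (2 * a)]
      exact mul_le_mul_of_nonneg_left (hload v hv) hφ.le
    have c3 := BB_nonneg G l (2 * a / d) T v
    rw [ind_of_mem hv, mul_one] at c1
    have c4 : a / d = (2 * a / d) / 2 := by ring
    rw [c4]
    generalize 2 * a / d = φ at *
    generalize BB G l φ T v = B at *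
    have hE : 0 < 4 * Real.exp (2 * (64 * a)) := by positivity
    generalize 4 * Real.exp (2 * (64 * a)) = CL at *
    have d1 : (5 / 8) * φ ≤ (3 / (4 * (24 * a))) * (24 * a * φ - B) - (2 / (64 * a)) * B := by
      have e1 : (3 / (4 * (24 * a))) * (24 * a * φ - B) - (2 / (64 * a)) * B =
          (3 / 4) * φ - B / (16 * a) := by field_simp; ring
      have e2 : B / (16 * a) ≤ φ / 8 := by
        rw [div_le_iff₀ (by positivity)]; linarith
      linarith
    have d2 : 8 * (24 * a) * CL * B ≤ R * (φ / 8) := by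
      calc 8 * (24 * a) * CL * B ≤ 8 * (24 * a) * CL * (2 * a * φ) :=
            mul_le_mul_of_nonneg_left c2 (by positivity)
        _ = (128 * a * (24 * a) * CL) * (φ / 8) := by ring
        _ ≤ R * (φ / 8) := mul_le_mul_of_nonneg_right hR (by positivity)
    have d3 := mul_le_mul_of_nonneg_left d1 hRpos.le
    have d4 : (R : ℝ) * (φ / 2) ≤ R * μ.E (fun J => ind J v) := by linarith
    exact le_of_mul_le_mul_left d4 hRpos)
  refine ⟨μ', b1, b2, fun u v huv => (b3 u v).trans ((h3 u v huv).trans ?_)⟩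
  have c1 : ind T u * ind T v ≤ 1 :=
    mul_le_one₀ (ind_le_one _ _) (ind_nonneg _ _) (ind_le_one _ _)
  calc K * ((2 * a / d) ^ 2 * (ind T u * ind T v)) ≤ K * ((2 * a / d) ^ 2 * 1) := by gcongr
    _ = 4 * K * (a / d) ^ 2 := by ring

theorem good (r : ℕ) (hr : 2 ≤ r) : Good r := by
  induction r, hr using Nat.le_induction with
  | base => exact good_two
  | succ r hr ih => exact good_succ r hr ih

variable {V : Type} [Fintype V]

lemma exists_level (G : SimpleGraph V) (d : ℕ) (hG : Degen G d) :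
    ∃ l : V → ℕ, Function.Injective l ∧ ∀ v, (par G l v).card ≤ d := by
  have key : ∀ n : ℕ, ∀ S : Finset V, S.card = n → ∃ l : V → ℕ,
      (∀ x ∈ S, ∀ y ∈ S, l x = l y → x = y) ∧
      ∀ v ∈ S, (S.filter (fun u => G.Adj v u ∧ l v < l u)).card ≤ d := by
    intro n
    induction n with
    | zero =>
      intro S hS
      rw [Finset.card_eq_zero] at hS
      subst hS
      exact ⟨fun _ => 0, by simp, by simp⟩
    | succ n ih =>
      intro S hS
      obtain ⟨w, hw, hwd⟩ := hG S (by rw [← Finset.card_pos]; omega)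
      obtain ⟨l, h1, h2⟩ := ih (S.erase w) (by rw [Finset.card_erase_of_mem hw]; omega)
      refine ⟨fun x => if x = w then 0 else l x + 1, ?_, ?_⟩
      · intro x hx y hy hxy
        beta_reduce at hxy
        by_cases hxw : x = w <;> by_cases hyw : y = w
        · rw [hxw, hyw]
        · rw [if_pos hxw, if_neg hyw] at hxy; omega
        · rw [if_neg hxw, if_pos hyw] at hxy; omega
        · rw [if_neg hxw, if_neg hyw] at hxy
          exact h1 x (by simp [hx, hxw]) y (by simp [hy, hyw]) (by omega)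
      · intro v hv
        by_cases hvw : v = w
        · subst hvw
          refine le_trans (Finset.card_le_card ?_) hwd
          intro u hu
          rw [mem_filter] at hu ⊢
          exact ⟨hu.1, hu.2.1⟩
        · refine le_trans (Finset.card_le_card ?_) (h2 v (by simp [hv, hvw]))
          intro u hu
          rw [mem_filter] at hu ⊢
          obtain ⟨a1, a2, a3⟩ := hu
          beta_reduce at a3
          rw [if_neg hvw] at a3
          by_cases huw : u = w
          · rw [if_pos huw] at a3; omega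
          · rw [if_neg huw] at a3
            exact ⟨by simp [a1, huw], a2, by omega⟩
  obtain ⟨l, h1, h2⟩ := key _ univ rfl
  refine ⟨l, fun x y h => h1 x (mem_univ _) y (mem_univ _) h, fun v => ?_⟩
  refine le_trans (le_of_eq ?_) (h2 v (mem_univ v))
  congr 1
  ext u
  simp [mem_par]

omit [Fintype V] in
lemma CF_of_cliqueFree {G : SimpleGraph V} {r : ℕ} (h : G.CliqueFree r) (T : Finset V) :
    CF G r T := fun s _ => h s

/-- fractional colourings -/
theorem frac (r : ℕ) (hr : 2 ≤ r) (ε : ℝ) (hε : 0 < ε) : ∃ D : ℕ, ∀ d : ℕ, D ≤ d →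
    ∀ (V : Type) [Fintype V] (G : SimpleGraph V), G.CliqueFree r → Degen G d →
    ∃ w : Finset V → ℝ, (∀ I, 0 ≤ w I) ∧ (∀ I, w I ≠ 0 → Ind G I) ∧
      (∀ v, 1 ≤ ∑ I, w I * ind I v) ∧ ∑ I, w I ≤ ε * d := by
  obtain ⟨K, D, -, hD, h⟩ := good r hr (1 / ε) (by positivity)
  refine ⟨⌈D⌉₊, ?_⟩
  intro d hd V _ G hG hdeg
  have hd' : D ≤ d := (Nat.le_ceil D).trans (by exact_mod_cast hd)
  have hd0 : (0 : ℝ) < d := lt_of_lt_of_le hD hd'
  obtain ⟨l, hl, hld⟩ := exists_level G d hdeg
  obtain ⟨μ, h1, h2, -⟩ := h d hd' V G l hl univ (CF_of_cliqueFree hG _) (by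
    intro v _
    rw [Finset.inter_univ]
    exact_mod_cast hld v)
  refine ⟨fun I => ε * d * μ.w I, ?_, ?_, ?_, ?_⟩
  · intro I
    exact mul_nonneg (by positivity) (μ.nonneg I)
  · intro I hI
    exact (h1 I (right_ne_zero_of_mul hI)).2
  · intro v
    have := h2 v (mem_univ v)
    unfold Law.E at this
    simp only [mul_assoc (ε * d)]
    rw [← Finset.mul_sum, this]
    apply le_of_eq
    field_simp
  · rw [← Finset.mul_sum, μ.sum_one, mul_one]

lemma law_exp_moment (μ : Law (Finset V)) (q K lam : ℝ) (d : ℝ) (hq : 0 ≤ q) (hK : 0 ≤ K)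
    (hlam0 : 0 ≤ lam) (hlam : lam * (1 + K * q * d) ≤ 1)
    (h2 : ∀ v, μ.E (fun J => ind J v) = q)
    (h3 : ∀ u v, u ≠ v → μ.E (fun J => ind J u * ind J v) ≤ K * q ^ 2)
    (Y : Finset V) (hY : (Y.card : ℝ) ≤ d) :
    μ.E (fun J => Real.exp (-(lam * ((Y ∩ J).card : ℝ)))) ≤ 1 - lam * Y.card * q / 2 := by
  have h1 : ∀ J : Finset V, Real.exp (-(lam * ((Y ∩ J).card : ℝ))) ≤
      1 - lam * (∑ v ∈ Y, ind J v) + lam ^ 2 / 2 * ∑ u ∈ Y, ∑ v ∈ Y, ind J u * ind J v := by
    intro J
    refine (exp_neg_le_quad (by positivity)).trans ?_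
    rw [← Finset.sum_mul_sum, ← card_inter_eq]
    apply le_of_eq
    ring
  refine (μ.E_mono h1).trans ?_
  rw [Law.E_add, Law.E_sub, Law.E_const, Law.E_mul_left, Law.E_mul_left, Law.E_sum, Law.E_sum,
    Finset.sum_congr rfl (fun v _ => h2 v), Finset.sum_const, nsmul_eq_mul]
  have b2 : ∑ u ∈ Y, μ.E (fun J => ∑ v ∈ Y, ind J u * ind J v) ≤
      (Y.card : ℝ) * (q * (1 + K * q * d)) := by
    rw [← nsmul_eq_mul, ← Finset.sum_const]
    refine Finset.sum_le_sum (fun u hu => ?_)
    rw [Law.E_sum, ← Finset.add_sum_erase _ _ hu]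
    have c1 : μ.E (fun J => ind J u * ind J u) = q := by
      rw [← h2 u]
      refine μ.E_congr (fun J => ?_)
      unfold ind; split_ifs <;> norm_num
    have c2 : ∑ v ∈ Y.erase u, μ.E (fun J => ind J u * ind J v) ≤ d * (K * q ^ 2) := by
      calc ∑ v ∈ Y.erase u, μ.E (fun J => ind J u * ind J v)
          ≤ ∑ _v ∈ Y.erase u, K * q ^ 2 :=
            Finset.sum_le_sum (fun v hv => h3 u v (Finset.ne_of_mem_erase hv).symm)
        _ = ((Y.erase u).card : ℝ) * (K * q ^ 2) := by rw [Finset.sum_const, nsmul_eq_mul]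
        _ ≤ d * (K * q ^ 2) := by
            refine mul_le_mul_of_nonneg_right ?_ (by positivity)
            refine le_trans ?_ hY
            exact_mod_cast Finset.card_le_card (Finset.erase_subset _ _)
    nlinarith
  have hYq : 0 ≤ lam * ((Y.card : ℝ) * q) := by positivity
  have b3 : lam ^ 2 / 2 * ∑ u ∈ Y, μ.E (fun J => ∑ v ∈ Y, ind J u * ind J v) ≤
      lam * ((Y.card : ℝ) * q) / 2 := by
    calc lam ^ 2 / 2 * ∑ u ∈ Y, μ.E (fun J => ∑ v ∈ Y, ind J u * ind J v)
        ≤ lam ^ 2 / 2 * ((Y.card : ℝ) * (q * (1 + K * q * d))) :=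
          mul_le_mul_of_nonneg_left b2 (by positivity)
      _ = (lam * (1 + K * q * d)) * (lam * ((Y.card : ℝ) * q)) / 2 := by ring
      _ ≤ 1 * (lam * ((Y.card : ℝ) * q)) / 2 := by gcongr
      _ = _ := by ring
  nlinarith

lemma cover (G : SimpleGraph V) (P : V → Finset V) (μ : Law (Finset V)) (lam ρ : ℝ) (t : ℕ)
    (hlam0 : 0 ≤ lam) (hρ : 0 ≤ ρ) (h1 : μ.AS (fun J => Ind G J))
    (h2 : ∀ v, ∀ Y ⊆ P v, t ≤ Y.card →
      μ.E (fun J => Real.exp (-(lam * ((Y ∩ J).card : ℝ)))) ≤ ρ) :
    ∀ (k : ℕ) (U : Finset V),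
      (∑ v, if t ≤ (P v ∩ U).card then Real.exp (lam * (((P v ∩ U).card : ℝ) - t)) else 0) *
        ρ ^ k < 1 →
      ∃ U' : Finset V, U' ⊆ U ∧ (∀ v, (P v ∩ U').card < t) ∧ ∃ c : V → ℕ,
        (∀ v ∈ U, v ∉ U' → c v < k) ∧
        ∀ u ∈ U, u ∉ U' → ∀ v ∈ U, v ∉ U' → G.Adj u v → c u ≠ c v := by
  intro k
  induction k with
  | zero =>
    intro U hU
    refine ⟨U, subset_rfl, ?_, fun _ => 0, fun v a b => absurd a b, fun u a b => absurd a b⟩
    intro v
    by_contra hcon
    push Not at hcon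
    rw [pow_zero, mul_one] at hU
    have a1 := Finset.single_le_sum (s := univ) (f := fun v => if t ≤ (P v ∩ U).card then
      Real.exp (lam * (((P v ∩ U).card : ℝ) - t)) else 0)
      (fun v _ => by split_ifs <;> positivity) (mem_univ v)
    simp only [if_pos hcon] at a1
    have a2 : (t : ℝ) ≤ (P v ∩ U).card := by exact_mod_cast hcon
    have a3 := Real.one_le_exp (mul_nonneg hlam0 (sub_nonneg.2 a2))
    linarith
  | succ k ih =>
    intro U hU
    obtain ⟨J, hJ, hJle⟩ := μ.exists_le_E (fun J => ∑ v, if t ≤ (P v ∩ (U \ J)).card then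
      Real.exp (lam * (((P v ∩ (U \ J)).card : ℝ) - t)) else 0)
    have hE : μ.E (fun J => ∑ v, if t ≤ (P v ∩ (U \ J)).card then
        Real.exp (lam * (((P v ∩ (U \ J)).card : ℝ) - t)) else 0) ≤
        (∑ v, if t ≤ (P v ∩ U).card then Real.exp (lam * (((P v ∩ U).card : ℝ) - t)) else 0) *
          ρ := by
      rw [Law.E_sum, Finset.sum_mul]
      refine Finset.sum_le_sum (fun v _ => ?_)
      have hle : ∀ J : Finset V, (P v ∩ (U \ J)).card ≤ (P v ∩ U).card := fun J =>
        Finset.card_le_card (Finset.inter_subset_inter_left Finset.sdiff_subset)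
      by_cases ht : t ≤ (P v ∩ U).card
      · rw [if_pos ht]
        refine le_trans ?_ (mul_le_mul_of_nonneg_left
          (h2 v (P v ∩ U) Finset.inter_subset_left ht) (Real.exp_pos _).le)
        rw [← Law.E_mul_left]
        refine μ.E_mono (fun J => ?_)
        have a1 : ((P v ∩ (U \ J)).card : ℝ) + ((P v ∩ U) ∩ J).card = (P v ∩ U).card := by
          have : P v ∩ (U \ J) = (P v ∩ U) \ J := by
            ext x; simp [and_assoc]
          rw [this]
          exact_mod_cast Finset.card_sdiff_add_card_inter _ _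
        split_ifs
        · rw [← Real.exp_add]
          apply le_of_eq
          congr 1
          rw [← a1]; ring
        · positivity
      · rw [if_neg ht, zero_mul]
        refine le_trans (μ.E_mono (g := fun _ => 0) (fun J => ?_)) (le_of_eq (μ.E_const 0))
        rw [if_neg (fun h => ht (h.trans (hle J)))]
    obtain ⟨U', a1, a2, c, a3, a4⟩ := ih (U \ J) (by
      refine lt_of_le_of_lt ?_ hU
      rw [pow_succ', ← mul_assoc]
      exact mul_le_mul_of_nonneg_right (hJle.trans hE) (by positivity))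
    refine ⟨U', a1.trans Finset.sdiff_subset, a2, fun v => if v ∈ J then k else c v, ?_, ?_⟩
    · intro v hv hv'
      beta_reduce
      split_ifs with h
      · omega
      · have := a3 v (mem_sdiff.2 ⟨hv, h⟩) hv'
        omega
    · intro u hu hu' v hv hv' huv
      beta_reduce
      by_cases b1 : u ∈ J <;> by_cases b2 : v ∈ J
      · exact absurd huv (h1 J hJ u b1 v b2)
      · rw [if_pos b1, if_neg b2]
        have := a3 v (mem_sdiff.2 ⟨hv, b2⟩) hv'
        omega
      · rw [if_neg b1, if_pos b2]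
        have := a3 u (mem_sdiff.2 ⟨hu, b1⟩) hu'
        omega
      · rw [if_neg b1, if_neg b2]
        exact a4 u (mem_sdiff.2 ⟨hu, b1⟩) hu' v (mem_sdiff.2 ⟨hv, b2⟩) hv' huv

/-- small degenerate graphs without large cliques can be coloured with `d` colours -/
theorem small (r : ℕ) (hr : 2 ≤ r) : ∃ c : ℝ, 0 < c ∧ ∃ D : ℕ, ∀ d : ℕ, D ≤ d →
    ∀ (V : Type) [Fintype V] (G : SimpleGraph V), G.CliqueFree r → Degen G d →
    (Fintype.card V : ℝ) < Real.exp (c * d) → Col G d := by
  obtain ⟨K, D, hK, hD, h⟩ := good r hr 32 (by norm_num)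
  refine ⟨1 / (1 + 32 * K), by positivity, ⌈D⌉₊ + 2, ?_⟩
  intro d hd V _ G hG hdeg hn
  have hd' : D ≤ d := (Nat.le_ceil D).trans (by exact_mod_cast (by omega : ⌈D⌉₊ ≤ d))
  have hd0 : (0 : ℝ) < d := lt_of_lt_of_le hD hd'
  obtain ⟨l, hl, hld⟩ := exists_level G d hdeg
  obtain ⟨μ, h1, h2, h3⟩ := h d hd' V G l hl univ (CF_of_cliqueFree hG _) (by
    intro v _
    rw [Finset.inter_univ]
    exact_mod_cast hld v)
  set lam : ℝ := 1 / (1 + 32 * K) with hlam
  have hlam0 : 0 < lam := by positivity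
  set k := d / 2 with hk
  set t := d - k with ht
  have htd : (d : ℝ) / 2 ≤ t := by
    have : d ≤ 2 * t := by omega
    have : (d : ℝ) ≤ 2 * t := by exact_mod_cast this
    linarith
  have hkd : (d : ℝ) / 4 ≤ k := by
    have : d ≤ 4 * k := by omega
    have : (d : ℝ) ≤ 4 * k := by exact_mod_cast this
    linarith
  obtain ⟨U', -, a2, c, a3, a4⟩ := cover G (par G l) μ lam (Real.exp (-(8 * lam))) t hlam0.le
    (Real.exp_pos _).le (fun J hJ => (h1 J hJ).2)
    (by
      intro v Y hY htY
      have b1 : (Y.card : ℝ) ≤ d := by exact_mod_cast (Finset.card_le_card hY).trans (hld v)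
      refine (law_exp_moment μ (32 / d) K lam d (by positivity) (by linarith) hlam0.le ?_
        (fun v => h2 v (mem_univ v)) h3 Y b1).trans ?_
      · apply le_of_eq
        rw [hlam]; field_simp
      · have b2 : (t : ℝ) ≤ Y.card := by exact_mod_cast htY
        have b3 := Real.add_one_le_exp (-(8 * lam))
        have b4 : 8 * lam ≤ lam * Y.card * (32 / d) / 2 := by
          have : lam * Y.card * (32 / d) / 2 = 16 * lam * (Y.card / d) := by ring
          rw [this]
          have : 1 / 2 ≤ (Y.card : ℝ) / d := by rw [le_div_iff₀ hd0]; linarith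
          nlinarith
        linarith)
    k univ
    (by
      have b1 : (∑ v, if t ≤ (par G l v ∩ univ).card then
          Real.exp (lam * (((par G l v ∩ univ).card : ℝ) - t)) else 0) ≤
          Fintype.card V * Real.exp (lam * d) := by
        rw [← Finset.card_univ, ← nsmul_eq_mul, ← Finset.sum_const]
        refine Finset.sum_le_sum (fun v _ => ?_)
        split_ifs
        · refine Real.exp_le_exp.2 (mul_le_mul_of_nonneg_left ?_ hlam0.le)
          rw [Finset.inter_univ]
          have : ((par G l v).card : ℝ) ≤ d := by exact_mod_cast hld v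
          have : (0 : ℝ) ≤ t := Nat.cast_nonneg _
          linarith
        · positivity
      calc _ ≤ Fintype.card V * Real.exp (lam * d) * Real.exp (-(8 * lam)) ^ k :=
            mul_le_mul_of_nonneg_right b1 (by positivity)
        _ < Real.exp (lam * d) * Real.exp (lam * d) * Real.exp (-(8 * lam)) ^ k := by gcongr
        _ ≤ 1 := by
            rw [← Real.exp_nat_mul, ← Real.exp_add, ← Real.exp_add, ← Real.exp_zero]
            refine Real.exp_le_exp.2 ?_
            nlinarith)
  obtain ⟨c', b1, b2⟩ := col_of_degen (restr G U') (t - 1) (by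
    intro S hS
    obtain ⟨v, hv, hmin⟩ := Finset.exists_min_image S l hS
    refine ⟨v, hv, ?_⟩
    have c1 : S.filter ((restr G U').Adj v) ⊆ par G l v ∩ U' := by
      intro u hu
      rw [mem_filter] at hu
      refine mem_inter.2 ⟨mem_par.2 ⟨hu.2.1, ?_⟩, hu.2.2.2⟩
      exact lt_of_le_of_ne (hmin u hu.1) (fun h => hu.2.1.ne (hl h))
    have c2 := Finset.card_le_card c1
    have c3 := a2 v
    omega)
  refine ⟨fun v => if v ∈ U' then k + c' v else c v, ?_, ?_⟩
  · intro v
    beta_reduce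
    split_ifs with hv
    · have := b1 v
      omega
    · have := a3 v (mem_univ v) hv
      omega
  · intro u v huv
    beta_reduce
    by_cases hu : u ∈ U' <;> by_cases hv : v ∈ U'
    · rw [if_pos hu, if_pos hv]
      have := b2 u v ⟨huv, hu, hv⟩
      omega
    · rw [if_pos hu, if_neg hv]
      have := a3 v (mem_univ v) hv
      omega
    · rw [if_neg hu, if_pos hv]
      have := a3 u (mem_univ u) hu
      omega
    · rw [if_neg hu, if_neg hv]
      exact a4 u (mem_univ u) hu v (mem_univ v) hv huv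

end Pool.Agent.H41Z.KR
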